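import Pool.Agent.K6.H63.OscPair

set_option autoImplicit false
set_option linter.unusedSectionVars false

/-!
A family of points of a Cantor cube, indexed by the countable ordinals, with a partition relation
for pairs; it gives a left-separated space whose square has no uncountable discrete subspace.
-/

namespace Pool.Agent.K6.H63.LSquare

open Set Pool.Agent.Results.MP_b9a716_gt.MooreLSpace Pool.Agent.K6.H63.OscPair

/-! ### Two open sets of the circle -/

/-- the real sets -/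
def RS : Bool → Set ℝ
  | true => {x | (1 / 4 < x ∧ x < 3 / 8) ∨ (5 / 8 < x ∧ x < 1)}
  | false => {x | (0 < x ∧ x < 1 / 4) ∨ (3 / 8 < x ∧ x < 5 / 8)}

/-- their images in the circle -/
def CS (v : Bool) : Set UnitAddCircle := (fun x : ℝ => (x : UnitAddCircle)) '' RS v

theorem RS_open (v : Bool) : IsOpen (RS v) := by
  cases v
  · exact isOpen_Ioo.union isOpen_Ioo
  · exact isOpen_Ioo.union isOpen_Ioo

theorem CS_open (v : Bool) : IsOpen (CS v) :=
  QuotientAddGroup.isOpenMap_coe _ (RS_open v)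

theorem RS_01 {v : Bool} {x : ℝ} (h : x ∈ RS v) : 0 < x ∧ x < 1 := by
  cases v
  · rcases h with h | h
    · exact ⟨h.1, by linarith [h.2]⟩
    · exact ⟨by linarith [h.1], by linarith [h.2]⟩
  · rcases h with h | h
    · exact ⟨by linarith [h.1], by linarith [h.2]⟩
    · exact ⟨by linarith [h.1], h.2⟩

theorem coe_inj {x y : ℝ} (hx : 0 < x ∧ x < 1) (hy : 0 < y ∧ y < 1)
    (h : (x : UnitAddCircle) = (y : UnitAddCircle)) : x = y := by
  have h1 : ((x - y : ℝ) : UnitAddCircle) = 0 := by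
    rw [AddCircle.coe_sub, h, sub_self]
  rw [AddCircle.coe_eq_zero_iff] at h1
  obtain ⟨n, hn⟩ := h1
  rw [zsmul_one] at hn
  have h2 : (n : ℝ) < 1 := by rw [hn]; linarith [hx.2, hy.1]
  have h3 : (-1 : ℝ) < n := by rw [hn]; linarith [hx.1, hy.2]
  have h4 : n < 1 := by exact_mod_cast h2
  have h5 : -1 < n := by exact_mod_cast h3
  have h6 : n = 0 := by omega
  rw [h6] at hn
  push_cast at hn
  linarith

theorem not_mem_CS {y : UnitAddCircle} (h : y ∈ CS false) : y ∉ CS true := by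
  rintro ⟨x, hx, rfl⟩
  obtain ⟨x', hx', h'⟩ := h
  have := coe_inj (RS_01 hx') (RS_01 hx) h'
  subst this
  rcases hx with h1 | h1 <;> rcases hx' with h2 | h2 <;> linarith [h1.1, h1.2, h2.1, h2.2]

theorem shift_aux (s : ℝ) (h0 : 0 < s) (h1 : s < 1) (u v : Bool) :
    ∃ x ∈ RS u, x + s ∈ RS v ∨ x + s - 1 ∈ RS v := by
  cases u <;> cases v
  · rcases lt_or_ge s (1 / 4) with h | h
    · exact ⟨(1 / 4 - s) / 2, Or.inl ⟨by linarith, by linarith⟩,
        Or.inl (Or.inl ⟨by linarith, by linarith⟩)⟩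
    rcases lt_or_ge s (1 / 2) with h2 | h2
    · exact ⟨3 / 16 - (s - 1 / 4) / 2, Or.inl ⟨by linarith, by linarith⟩,
        Or.inl (Or.inr ⟨by linarith, by linarith⟩)⟩
    rcases le_or_gt s (3 / 4) with h3 | h3
    · exact ⟨5 / 16 + (1 - s) / 2, Or.inr ⟨by linarith, by linarith⟩,
        Or.inr (Or.inl ⟨by linarith, by linarith⟩)⟩
    · exact ⟨(1 / 4 + (1 - s)) / 2, Or.inl ⟨by linarith, by linarith⟩,
        Or.inr (Or.inl ⟨by linarith, by linarith⟩)⟩
  · rcases lt_or_ge s (1 / 2) with h | h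
    · exact ⟨5 / 8 - 3 * s / 8, Or.inr ⟨by linarith, by linarith⟩,
        Or.inl (Or.inr ⟨by linarith, by linarith⟩)⟩
    rcases lt_or_ge s (3 / 4) with h2 | h2
    · exact ⟨1 / 16 + (1 - s) / 4, Or.inl ⟨by linarith, by linarith⟩,
        Or.inl (Or.inr ⟨by linarith, by linarith⟩)⟩
    · exact ⟨(1 - s) / 2, Or.inl ⟨by linarith, by linarith⟩,
        Or.inl (Or.inr ⟨by linarith, by linarith⟩)⟩
  · rcases le_or_gt s (1 / 4) with h | h
    · exact ⟨1 - s / 2, Or.inr ⟨by linarith, by linarith⟩,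
        Or.inr (Or.inl ⟨by linarith, by linarith⟩)⟩
    rcases le_or_gt s (1 / 2) with h2 | h2
    · exact ⟨7 / 8 - 3 / 4 * (s - 1 / 4), Or.inr ⟨by linarith, by linarith⟩,
        Or.inr (Or.inl ⟨by linarith, by linarith⟩)⟩
    · exact ⟨5 / 8 + 5 * (1 - s) / 8, Or.inr ⟨by linarith, by linarith⟩,
        Or.inr (Or.inr ⟨by linarith, by linarith⟩)⟩
  · rcases lt_or_ge s (3 / 8) with h | h
    · exact ⟨5 / 8 + (3 / 8 - s) / 2, Or.inr ⟨by linarith, by linarith⟩,
        Or.inl (Or.inr ⟨by linarith, by linarith⟩)⟩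
    rcases lt_or_ge s (1 / 2) with h2 | h2
    · exact ⟨5 / 16, Or.inl ⟨by linarith, by linarith⟩,
        Or.inl (Or.inr ⟨by linarith, by linarith⟩)⟩
    rcases le_or_gt s (5 / 8) with h3 | h3
    · exact ⟨5 / 16 + (1 - s), Or.inr ⟨by linarith, by linarith⟩,
        Or.inr (Or.inl ⟨by linarith, by linarith⟩)⟩
    · exact ⟨5 / 8 + (3 / 8 + (1 - s)) / 2, Or.inr ⟨by linarith, by linarith⟩,
        Or.inr (Or.inr ⟨by linarith, by linarith⟩)⟩

theorem shift {σ : UnitAddCircle} (hσ : σ ≠ 0) (u v : Bool) : ∃ c ∈ CS u, c + σ ∈ CS v := by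
  obtain ⟨s, hs, rfl⟩ : ∃ s : ℝ, (0 ≤ s ∧ s < 1) ∧ (s : UnitAddCircle) = σ := by
    obtain ⟨s, hs⟩ := (AddCircle.eq_coe_Ico (p := (1 : ℝ)) σ)
    exact ⟨s, ⟨hs.1.1, hs.1.2⟩, hs.2⟩
  have h0 : 0 < s := by
    rcases hs.1.lt_or_eq with h | h
    · exact h
    · exact absurd (by rw [← h]; rfl) hσ
  obtain ⟨x, hx, h | h⟩ := shift_aux s h0 hs.2 u v
  · exact ⟨x, ⟨x, hx, rfl⟩, ⟨x + s, h, by simp⟩⟩
  · refine ⟨x, ⟨x, hx, rfl⟩, ⟨x + s - 1, h, ?_⟩⟩
    have : ((1 : ℝ) : UnitAddCircle) = 0 := AddCircle.coe_period 1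
    simp only [AddCircle.coe_sub, AddCircle.coe_add, this, sub_zero]

/-! ### Independent circle points -/

/-- the two families of circle points -/
structure Ind {W : Type} (θ ρ : W → UnitAddCircle) : Prop where
  kr : ∀ (m : ℕ) (a : Fin m → W), Function.Injective a → ∀ ε : ℝ, 0 < ε →
    ∃ N : ℕ, ∀ t : Fin m → UnitAddCircle, ∃ j ≤ N, ∀ i, ‖j • θ (a i) - t i‖ < ε
  sh : ∀ (ξ b c : W) (p q : ℕ), b ≠ c → ρ c - ρ b + (q • θ ξ - p • θ ξ) ≠ 0

theorem exists_ind (W : Type) (hW : Cardinal.mk W ≤ Cardinal.continuum) :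
    ∃ θ ρ : W → UnitAddCircle, Ind θ ρ := by
  obtain ⟨r, hr⟩ := KronAux.exists_indep (W ⊕ W) (by
    rw [Cardinal.mk_sum]
    simp only [Cardinal.lift_id]
    exact Cardinal.add_le_of_le Cardinal.aleph0_le_continuum hW hW)
  refine ⟨fun ξ => (r (Sum.inl ξ) : UnitAddCircle), fun ξ => (r (Sum.inr ξ) : UnitAddCircle),
    ?_, ?_⟩
  · intro m a ha ε hε
    obtain ⟨N, hN⟩ := KronAux.uniform_orbit (fun i => ((r (Sum.inl (a i)) : ℝ) : UnitAddCircle))
      (fun k hk => KronAux.mF_ne_one (fun i => r (Sum.inl (a i)))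
        (hr m (fun i => Sum.inl (a i)) (Sum.inl_injective.comp ha)) k hk) ε hε
    refine ⟨N, fun t => ?_⟩
    obtain ⟨j, hj, hd⟩ := hN t
    refine ⟨j, hj, fun i => ?_⟩
    have h1 := (dist_le_pi_dist (j • (fun i => ((r (Sum.inl (a i)) : ℝ) : UnitAddCircle))) t i
      ).trans_lt hd
    rw [dist_eq_norm] at h1
    exact h1
  · intro ξ b c p q hbc h0
    have h1 : ((r (Sum.inr c) - r (Sum.inr b) + ((q : ℝ) * r (Sum.inl ξ) - (p : ℝ) * r (Sum.inl ξ)) :
        ℝ) : UnitAddCircle) = 0 := by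
      rw [← h0, ← nsmul_eq_mul, ← nsmul_eq_mul]
      rfl
    rw [AddCircle.coe_eq_zero_iff] at h1
    obtain ⟨n, hn⟩ := h1
    refine hr 3 ![Sum.inr c, Sum.inr b, Sum.inl ξ] ?_ ![1, -1, (q : ℤ) - p] ?_ n ?_
    · intro i j hij
      fin_cases i <;> fin_cases j <;> simp_all
    · intro h
      have := congrFun h 0
      simp at this
    · rw [zsmul_one] at hn
      rw [hn]
      simp only [Fin.sum_univ_three, Matrix.cons_val_zero, Matrix.cons_val_one, Matrix.cons_val]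
      push_cast
      ring

/-! ### The points -/

section points

variable {W : Type} [LinearOrder W] [OrderBot W] [WellFoundedLT W] [Om W]

open Classical in
/-- the points of the space -/
noncomputable def wv (θ ρ : W → UnitAddCircle) (β ξ : W) : Bool :=
  if ξ < β then decide (osc ξ β • θ ξ + ρ β ∈ CS true) else decide (ξ = β)

theorem wv_self (θ ρ : W → UnitAddCircle) (β : W) : wv θ ρ β β = true := by
  unfold wv
  rw [if_neg (lt_irrefl β)]
  simp

theorem wv_gt (θ ρ : W → UnitAddCircle) {β ξ : W} (h : β < ξ) : wv θ ρ β ξ = false := by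
  unfold wv
  rw [if_neg (not_lt.2 h.le)]
  simp [h.ne']

theorem wv_inj (θ ρ : W → UnitAddCircle) : Function.Injective (wv θ ρ) := by
  intro β γ h
  by_contra hne
  rcases lt_or_gt_of_ne hne with h1 | h1
  · have := wv_gt θ ρ h1
    rw [h, wv_self] at this
    simp at this
  · have := wv_gt θ ρ h1
    rw [← h, wv_self] at this
    simp at this

theorem wv_lt {θ ρ : W → UnitAddCircle} {β ξ : W} (h : ξ < β) {v : Bool}
    (hv : osc ξ β • θ ξ + ρ β ∈ CS v) : wv θ ρ β ξ = v := by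
  unfold wv
  rw [if_pos h]
  cases v
  · simpa using not_mem_CS hv
  · simpa using hv

/-- there is a limit point of a family of tuples -/
theorem exists_limit {m : ℕ} {E : Type} [TopologicalSpace E] [SecondCountableTopology E]
    {C : Set (Fin m → W)} (hC : Unb C) (f : (Fin m → W) → E) :
    ∃ a ∈ C, ∀ V : Set E, IsOpen V → f a ∈ V → Unb (C ∩ {x | f x ∈ V}) := by
  classical
  by_contra hcon
  push Not at hcon
  have h1 : ∀ a ∈ C, ∃ V : TopologicalSpace.countableBasis E, f a ∈ V.1 ∧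
      ¬ Unb (C ∩ {x | f x ∈ V.1}) := by
    intro a ha
    obtain ⟨V, hV, haV, hV'⟩ := hcon a ha
    obtain ⟨V', hV1, hV2, hV3⟩ := (TopologicalSpace.isBasis_countableBasis E).exists_subset_of_mem_open
      haV hV
    exact ⟨⟨V', hV1⟩, hV2, fun h => hV' (h.mono fun x hx => ⟨hx.1, hV3 hx.2⟩)⟩
  have hc : Countable (TopologicalSpace.countableBasis E) :=
    (TopologicalSpace.countable_countableBasis E).to_subtype
  obtain ⟨V, hV⟩ := hC.split (ι := TopologicalSpace.countableBasis E)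
    (fun V => {a | f a ∈ V.1 ∧ ¬ Unb (C ∩ {x | f x ∈ V.1})}) ⊥ (fun a ha _ => h1 a ha)
  obtain ⟨a, ha, -⟩ := hV ⊥
  exact ha.2.2 (hV.mono fun x hx => ⟨hx.1, hx.2.1⟩)

/-- the partition relation for pairs -/
theorem pair {θ ρ : W → UnitAddCircle} (h : Ind θ ρ) (P : Set (W × W))
    (hP : ∀ g, ∃ p ∈ P, g ≤ p.1 ∧ g ≤ p.2) (hne : ∀ p ∈ P, p.1 ≠ p.2) (F : W × W → Finset W) :
    ∃ p ∈ P, ∃ p' ∈ P, p.1 < p'.1 ∧
      ∀ ξ ∈ F p, wv θ ρ p'.1 ξ = wv θ ρ p.1 ξ ∧ wv θ ρ p'.2 ξ = wv θ ρ p.2 ξ := by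
  classical
  choose q hqP hq1 hq2 using hP
  let s' : W → Finset W := fun δ => insert (q δ).1 (F (q δ))
  let Pd : (ℕ × List (W × (Bool × Bool))) → W → W → Prop := fun D γ δ =>
    (∀ g ∈ D.2, (wv θ ρ (q δ).1 g.1, wv θ ρ (q δ).2 g.1) = g.2) ∧
      (∀ ξ ∈ s' δ, ξ ∉ D.2.map Prod.fst → γ ≤ ξ) ∧
      ((s' δ).filter (fun ξ => ξ ∉ D.2.map Prod.fst)).card = D.1
  obtain ⟨D, hD⟩ : ∃ D, ∀ γ, ∃ δ ≥ γ, Pd D γ δ := by
    by_contra hcon
    push Not at hcon
    choose γ hγ using hcon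
    obtain ⟨en, hen⟩ := exists_en2 (W := W) ℕ (Bool × Bool)
    obtain ⟨δ, hδ, hb, hcl⟩ := closed_pt en γ
    let G : List (W × (Bool × Bool)) := ((s' δ).filter (fun ξ => ξ < δ)).toList.map fun ξ =>
      (ξ, (wv θ ρ (q δ).1 ξ, wv θ ρ (q δ).2 ξ))
    have hGfst : ∀ ξ, ξ ∈ G.map Prod.fst ↔ ξ ∈ s' δ ∧ ξ < δ := by
      intro ξ
      simp [G]
    let D : ℕ × List (W × (Bool × Bool)) :=
      (((s' δ).filter (fun ξ => ξ ∉ G.map Prod.fst)).card, G)
    have hGδ : ∀ g ∈ G, g.1 < δ := by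
      intro g hg
      exact ((hGfst g.1).1 (List.mem_map.2 ⟨g, hg, rfl⟩)).2
    obtain ⟨d, hd, hd'⟩ := list_bound hδ hb G Prod.fst hGδ
    obtain ⟨j, hj⟩ := hen d D fun g hg => (hd' g hg).le
    have hlt : γ D < δ := by
      rw [← hj]; exact hcl d hd j
    refine hγ D δ hlt.le ⟨?_, ?_, rfl⟩
    · intro g hg
      obtain ⟨ξ, -, rfl⟩ := List.mem_map.1 hg
      rfl
    · intro ξ hξ hξ'
      have : ¬ ξ < δ := fun h => hξ' ((hGfst ξ).2 ⟨hξ, h⟩)
      exact hlt.le.trans (not_lt.1 this)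
  obtain ⟨m, G⟩ := D
  -- bound of the root
  obtain ⟨γ₀, hγ₀⟩ := bdd_range fun i : Fin G.length => (G.get i).1
  have hγ₀' : ∀ g ∈ G, g.1 < γ₀ := by
    intro g hg
    obtain ⟨i, rfl⟩ := List.get_of_mem hg
    exact hγ₀ i
  let Q : W → (Fin m → W) → Prop := fun δ a =>
    (∀ g ∈ G, (wv θ ρ (q δ).1 g.1, wv θ ρ (q δ).2 g.1) = g.2) ∧ (∃ i, a i = (q δ).1) ∧
    ∀ ξ ∈ s' δ, ξ ∈ G.map Prod.fst ∨ ∃ i, a i = ξ
  have hAA₀ : Unb {a : Fin m → W | Function.Injective a ∧ ∃ δ, Q δ a} := by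
    intro g
    obtain ⟨δ, hδ, e3, e4, e5⟩ := hD (max g γ₀)
    simp only at e3 e4 e5
    let T := (s' δ).filter (fun ξ => ξ ∉ G.map Prod.fst)
    have hT : T.card = m := e5
    have hmem : ∀ ξ ∈ T, ∃ i, T.orderEmbOfFin hT i = ξ := by
      intro ξ hξ
      have : ξ ∈ Set.range (T.orderEmbOfFin hT) := by
        rw [Finset.range_orderEmbOfFin]
        exact hξ
      exact this
    have hβ : (q δ).1 ∈ T := by
      rw [Finset.mem_filter]
      refine ⟨Finset.mem_insert_self _ _, fun h => ?_⟩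
      obtain ⟨g', hg', hg''⟩ := List.mem_map.1 h
      have h4 := hγ₀' g' hg'
      rw [hg''] at h4
      exact absurd (((le_max_right g γ₀).trans hδ).trans (hq1 δ)) (not_le.2 h4)
    refine ⟨T.orderEmbOfFin hT, ⟨(T.orderEmbOfFin hT).injective, δ, e3, hmem _ hβ, ?_⟩, ?_⟩
    · intro ξ hξ
      by_cases h : ξ ∈ G.map Prod.fst
      · exact Or.inl h
      · exact Or.inr (hmem ξ (Finset.mem_filter.2 ⟨hξ, h⟩))
    · intro i
      have := Finset.orderEmbOfFin_mem T hT i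
      rw [Finset.mem_filter] at this
      exact (le_max_left _ _).trans (e4 _ this.1 this.2)
  -- fix the target values
  obtain ⟨u, hu⟩ := hAA₀.split (ι := Fin m → Bool × Bool)
    (fun u => {a | ∃ δ, Q δ a ∧ ∀ i, (wv θ ρ (q δ).1 (a i), wv θ ρ (q δ).2 (a i)) = u i}) ⊥ (by
      rintro a ⟨-, δ, hδ⟩ -
      exact ⟨_, δ, hδ, fun i => rfl⟩)
  set A₀ : Set (Fin m → W) := {a : Fin m → W | Function.Injective a ∧ ∃ δ, Q δ a} ∩
    {a | ∃ δ, Q δ a ∧ ∀ i, (wv θ ρ (q δ).1 (a i), wv θ ρ (q δ).2 (a i)) = u i} with hA₀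
  let B₀ : Set (Fin 2 → W) := {b | (b 0, b 1) ∈ P ∧
    ∀ g ∈ G, (wv θ ρ (b 0) g.1, wv θ ρ (b 1) g.1) = g.2}
  have hB₀ : Unb B₀ := by
    intro g
    obtain ⟨δ, hδ, e3, -⟩ := hD g
    refine ⟨![(q δ).1, (q δ).2], ⟨?_, fun g' hg' => ?_⟩, fun k => ?_⟩
    · exact hqP δ
    · exact e3 g' hg'
    · fin_cases k
      · exact hδ.le.trans (hq1 δ)
      · exact hδ.le.trans (hq2 δ)
  -- the refinements
  let S : Type := Option (TopologicalSpace.countableBasis (Fin m → UnitAddCircle) ×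
    TopologicalSpace.countableBasis (Fin 2 → UnitAddCircle))
  have hc1 : Countable (TopologicalSpace.countableBasis (Fin m → UnitAddCircle)) :=
    (TopologicalSpace.countable_countableBasis _).to_subtype
  have hc2 : Countable (TopologicalSpace.countableBasis (Fin 2 → UnitAddCircle)) :=
    (TopologicalSpace.countable_countableBasis _).to_subtype
  have hcS : Countable S := inferInstanceAs (Countable (Option _))
  let AA : S → Set (Fin m → W) := fun s => match s with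
    | none => A₀
    | some V => A₀ ∩ {a | (fun i => θ (a i)) ∈ V.1.1}
  let BB : S → Set (Fin 2 → W) := fun s => match s with
    | none => B₀
    | some V => B₀ ∩ {b | (fun k => ρ (b k)) ∈ V.2.1}
  obtain ⟨b, hb, C, D, hAC, hmain⟩ := oscA AA BB none hu hB₀
  obtain ⟨a', ha', hlim⟩ := exists_limit hAC (fun a i => θ (a i))
  have ha'inj : Function.Injective a' := ha'.1.1.1
  -- the shifts
  have hbne : b 0 ≠ b 1 := hne _ hb.1
  let σ : (Fin m → UnitAddCircle) → Fin m → UnitAddCircle := fun ϑ i =>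
    ρ (b 1) - ρ (b 0) + (D i 1 • ϑ i - D i 0 • ϑ i)
  have hσ : ∀ i, σ (fun i => θ (a' i)) i ≠ 0 := fun i => h.sh (a' i) (b 0) (b 1) _ _ hbne
  choose c hc1 hc2 using fun i => shift (hσ i) (u i).1 (u i).2
  let O : Set ((Fin m → UnitAddCircle) × (Fin m → UnitAddCircle)) :=
    {y | ∀ i, y.1 i ∈ CS (u i).1 ∧ y.2 i ∈ CS (u i).2}
  have hO : IsOpen O := by
    have : O = ⋂ i, {y : (Fin m → UnitAddCircle) × (Fin m → UnitAddCircle) |
        y.1 i ∈ CS (u i).1 ∧ y.2 i ∈ CS (u i).2} := by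
      ext y
      simp [O]
    rw [this]
    refine isOpen_iInter_of_finite fun i => ?_
    exact ((CS_open _).preimage (by fun_prop)).inter ((CS_open _).preimage (by fun_prop))
  obtain ⟨ε, hε, hball⟩ := Metric.isOpen_iff.1 hO (c, fun i => c i + σ (fun i => θ (a' i)) i)
    (fun i => ⟨hc1 i, hc2 i⟩)
  set η : ℝ := ε / 5 with hη
  have hη0 : 0 < η := by positivity
  obtain ⟨N, hN⟩ := h.kr m a' ha'inj η hη0
  -- the box for `a`
  let V₁ : Set (Fin m → UnitAddCircle) := {ϑ | ∀ i, (∀ j ∈ Finset.range (N + 1),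
    ‖j • ϑ i - j • θ (a' i)‖ < η) ∧ ‖σ ϑ i - σ (fun i => θ (a' i)) i‖ < η}
  have hV₁ : IsOpen V₁ := by
    have : V₁ = ⋂ i, ((⋂ j ∈ Finset.range (N + 1), {ϑ : Fin m → UnitAddCircle |
        ‖j • ϑ i - j • θ (a' i)‖ < η}) ∩ {ϑ | ‖σ ϑ i - σ (fun i => θ (a' i)) i‖ < η}) := by
      ext ϑ
      simp [V₁]
    rw [this]
    refine isOpen_iInter_of_finite fun i => ?_
    refine (isOpen_biInter_finset fun j _ => ?_).inter ?_
    · exact isOpen_lt (by fun_prop) continuous_const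
    · exact isOpen_lt (by simp only [σ]; fun_prop) continuous_const
  have hmV₁ : (fun i => θ (a' i)) ∈ V₁ := by
    intro i
    simp only [sub_self, norm_zero]
    exact ⟨fun _ _ => hη0, hη0⟩
  obtain ⟨V, hVb, hVa, hVsub⟩ := (TopologicalSpace.isBasis_countableBasis
    (Fin m → UnitAddCircle)).exists_subset_of_mem_open hmV₁ hV₁
  -- the box for `b`
  let V₂ : Set (Fin 2 → UnitAddCircle) := Metric.ball (fun k => ρ (b k)) η
  obtain ⟨V', hV'b, hV'a, hV'sub⟩ := (TopologicalSpace.isBasis_countableBasis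
    (Fin 2 → UnitAddCircle)).exists_subset_of_mem_open
      (show (fun k => ρ (b k)) ∈ V₂ from Metric.mem_ball_self hη0) Metric.isOpen_ball
  obtain ⟨a, ⟨⟨ha1, ha2⟩, haC⟩, T, bb, hbb0, hbb⟩ := hmain (some (⟨V, hVb⟩, ⟨V', hV'b⟩))
    ((hlim V (TopologicalSpace.isOpen_of_mem_countableBasis hVb) hVa).mono (by
      rintro x ⟨⟨hx1, hx2⟩, hx3⟩
      exact ⟨⟨hx1, hx3⟩, hx2⟩))
    ⟨hb, hV'a⟩ N
  have haV := hVsub ha2
  obtain ⟨-, δ, ⟨hQ1, ⟨i₀, hi₀⟩, hQ3⟩, hval⟩ := ha1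
  obtain ⟨j, hj, hji⟩ := hN (fun i => c i - ((D i 0 + T i) • θ (a i) + ρ (b 0)))
  obtain ⟨⟨hbj, hbV⟩, hosc⟩ := hbb j hj
  have hbV' := hV'sub hbV
  have hbk : ∀ k, ‖ρ (bb j k) - ρ (b k)‖ < η := by
    intro k
    have := (dist_le_pi_dist (fun k => ρ (bb j k)) (fun k => ρ (b k)) k).trans_lt hbV'
    rwa [dist_eq_norm] at this
  have hin : ((fun i => osc (a i) (bb j 0) • θ (a i) + ρ (bb j 0),
      fun i => osc (a i) (bb j 1) • θ (a i) + ρ (bb j 1)) :
      (Fin m → UnitAddCircle) × (Fin m → UnitAddCircle)) ∈ O := by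
    apply hball
    rw [Metric.mem_ball, Prod.dist_eq, max_lt_iff, dist_pi_lt_iff hε, dist_pi_lt_iff hε]
    constructor
    · intro i
      rw [dist_eq_norm]
      have e1 : osc (a i) (bb j 0) • θ (a i) + ρ (bb j 0) - c i =
          (j • θ (a i) - j • θ (a' i)) + (j • θ (a' i) -
            (c i - ((D i 0 + T i) • θ (a i) + ρ (b 0)))) + (ρ (bb j 0) - ρ (b 0)) := by
        rw [(hosc i 0).2]
        simp only [add_smul]
        abel
      simp only
      rw [e1]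
      have h1 := (haV i).1 j (Finset.mem_range.2 (Nat.lt_succ_of_le hj))
      have h2 := hji i
      have h3 := hbk 0
      refine (norm_add₃_le).trans_lt ?_
      linarith
    · intro i
      rw [dist_eq_norm]
      have e1 : osc (a i) (bb j 1) • θ (a i) + ρ (bb j 1) - (c i + σ (fun i => θ (a' i)) i) =
          ((j • θ (a i) - j • θ (a' i)) + (j • θ (a' i) -
            (c i - ((D i 0 + T i) • θ (a i) + ρ (b 0)))) + (ρ (bb j 1) - ρ (b 1))) +
            (σ (fun i => θ (a i)) i - σ (fun i => θ (a' i)) i) := by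
        rw [(hosc i 1).2]
        simp only [add_smul, σ]
        abel
      simp only
      rw [e1]
      have h1 := (haV i).1 j (Finset.mem_range.2 (Nat.lt_succ_of_le hj))
      have h2 := hji i
      have h3 := hbk 1
      have h4 := (haV i).2
      have h5 := norm_add_le ((j • θ (a i) - j • θ (a' i)) + (j • θ (a' i) -
            (c i - ((D i 0 + T i) • θ (a i) + ρ (b 0)))) + (ρ (bb j 1) - ρ (b 1)))
            (σ (fun i => θ (a i)) i - σ (fun i => θ (a' i)) i)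
      have h6 := norm_add₃_le (a := j • θ (a i) - j • θ (a' i)) (b := j • θ (a' i) -
            (c i - ((D i 0 + T i) • θ (a i) + ρ (b 0)))) (c := ρ (bb j 1) - ρ (b 1))
      linarith
  refine ⟨q δ, hqP δ, (bb j 0, bb j 1), hbj.1, ?_, ?_⟩
  · rw [← hi₀]
    exact (hosc i₀ 0).1
  · intro ξ hξ
    rcases hQ3 ξ (Finset.mem_insert_of_mem hξ) with h' | ⟨i, rfl⟩
    · obtain ⟨g, hg, rfl⟩ := List.mem_map.1 h'
      have h1 := hbj.2 g hg
      have h2 := hQ1 g hg
      rw [← h2, Prod.mk.injEq] at h1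
      exact h1
    · have h1 := hval i
      rw [Prod.ext_iff] at h1
      simp only at h1
      rw [h1.1, h1.2]
      exact ⟨wv_lt (hosc i 0).1 (hin i).1, wv_lt (hosc i 1).1 (hin i).2⟩

end points

end Pool.Agent.K6.H63.LSquare
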