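import Pool.Agent.Results.MP_b9a716_gt.MooreLSpace

set_option autoImplicit false
set_option linter.unusedSectionVars false

/-!
Moore's oscillation theorem for tuples on both sides, with an adaptive choice of the two families
(they may be refined, within countably many choices, after the first tuple is known).
-/

namespace Pool.Agent.K6.H63.OscPair

open Set Pool.Agent.Results.MP_b9a716_gt.MooreLSpace

variable {W : Type} [LinearOrder W] [OrderBot W] [WellFoundedLT W] [Om W] {m l : ℕ}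

/-- an unbounded family of tuples -/
def Unb (C : Set (Fin m → W)) : Prop := ∀ g, ∃ a ∈ C, ∀ i, g ≤ a i

theorem Unb.mono {C D : Set (Fin m → W)} (h : Unb C) (hCD : C ⊆ D) : Unb D := fun g => by
  obtain ⟨a, ha, hg⟩ := h g
  exact ⟨a, hCD ha, hg⟩

theorem Unb.big {C : Set (Fin m → W)} (h : Unb C) :
    Big ({Set.univ} : Set (Set Unit)) {p : Unit × (Fin m → W) | p.2 ∈ C} := by
  intro g
  apply pos_unit
  obtain ⟨a, ha, hg⟩ := h g
  exact ⟨a, ha, hg⟩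

theorem unb_of_big {C : Set (Unit × (Fin m → W))} (h : Big ({Set.univ} : Set (Set Unit)) C) :
    Unb {a | ((), a) ∈ C} := by
  intro g
  obtain ⟨⟨k, a⟩, ha, hg⟩ := h.nonempty uf_unit g
  exact ⟨a, ha, hg⟩

theorem Unb.split {C : Set (Fin m → W)} (h : Unb C) {ι : Type} [Countable ι]
    (D : ι → Set (Fin m → W)) (g₀ : W) (hD : ∀ p ∈ C, (∀ i, g₀ ≤ p i) → ∃ n, p ∈ D n) :
    ∃ n, Unb (C ∩ D n) := by
  obtain ⟨n, hn⟩ := h.big.split uf_unit (fun n => {p : Unit × (Fin m → W) | p.2 ∈ D n}) g₀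
    (fun p hp hg => hD p.2 hp hg)
  exact ⟨n, unb_of_big hn⟩

theorem Unb.high {C : Set (Fin m → W)} (h : Unb C) :
    ∃ g₁ : W, ∀ (n : ℕ) (d : W), Unb {p ∈ C | ∀ i ξ, g₁ ≤ ξ → ξ < d → n < e ξ (p i)} := by
  obtain ⟨g₁, hg₁⟩ := h.big.high uf_unit
  exact ⟨g₁, fun n d => unb_of_big (hg₁ n d)⟩

theorem Unb.values {C : Set (Fin m → W)} (h : Unb C) (s : Fin l → List W) :
    ∃ q₀ ∈ C, Unb {q ∈ C | ∀ k, ∀ x ∈ s k, ∀ i, e x (q i) = e x (q₀ i)} := by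
  obtain ⟨t, ht⟩ := h.split (ι := Fin l → List (Fin m → ℕ))
    (fun t => {q | ∀ k, (s k).map (fun x i => e x (q i)) = t k}) ⊥ (fun q _ _ => ⟨_, fun _ => rfl⟩)
  obtain ⟨q₀, hq₀, -⟩ := ht ⊥
  refine ⟨q₀, hq₀.1, ht.mono ?_⟩
  rintro q ⟨hq1, hq2⟩
  refine ⟨hq1, fun k x hx i => ?_⟩
  have h1 : (s k).map (fun x i => e x (q i)) = (s k).map (fun x i => e x (q₀ i)) := by
    rw [hq2 k]; exact (hq₀.2 k).symm
  rw [List.map_inj_left] at h1
  exact congrFun (h1 x hx) i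

/-- lists of conditions -/
abbrev Gl (W : Type) (m : ℕ) : Type := List (W × ℕ × (Fin m → ℕ))

/-- the part of `AA` with the values given by `G` -/
def CGv (AA : Set (Fin m → W)) (G : Fin l → Gl W m) : Set (Fin m → W) :=
  {p ∈ AA | ∀ k, ∀ g ∈ G k, ∀ i, e g.1 (p i) = g.2.2 i}

structure Goodv (AA : Set (Fin m → W)) (BB : Set (Fin l → W)) (δ : W) (b : Fin l → W)
    (G : Fin l → Gl W m) : Prop where
  mem : b ∈ BB
  le : ∀ k, δ ≤ b k
  eqL : ∀ k, L δ (b k) = (G k).map Prod.fst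
  val : ∀ k, ∀ g ∈ G k, e g.1 (b k) = g.2.1
  big : Unb (CGv AA G)

def Psiv (AA : Set (Fin m → W)) (BB : Set (Fin l → W)) (p : W × W × (Fin l → Gl W m)) (δ : W)
    (b : Fin l → W) : Prop :=
  b ∈ BB ∧ (∀ k, δ ≤ b k) ∧ (∀ k, L δ (b k) = (p.2.2 k).map Prod.fst) ∧
    (∀ k, ∀ g ∈ p.2.2 k, e g.1 (b k) = g.2.1) ∧
    (∀ ξ, p.2.1 < ξ → ξ < δ → ∀ x ∈ L ξ δ, p.1 < x) ∧
    Unb {q ∈ CGv AA p.2.2 | ∀ i k ξ, p.1 ≤ ξ → ξ < δ → e ξ (q i) = e ξ (b k)}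

theorem lists_bound {δ : W} (hδ : ∀ g < δ, ∃ g' < δ, g < g') (hb : ⊥ < δ) (G : Fin l → Gl W m)
    (hG : ∀ k, ∀ g ∈ G k, g.1 < δ) : ∃ d < δ, ∀ k, ∀ g ∈ G k, g.1 < d := by
  obtain ⟨d, hd, h⟩ := finite_bound hδ hb (S := ⋃ k, {x | ∃ g ∈ G k, g.1 = x})
    (Set.finite_iUnion fun k => by
      refine ((List.finite_toSet ((G k).map Prod.fst))).subset ?_
      rintro x ⟨g, hg, rfl⟩
      exact List.mem_map.2 ⟨g, hg, rfl⟩) (by
    intro x hx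
    obtain ⟨k, g, hg, rfl⟩ := Set.mem_iUnion.1 hx
    exact hG k g hg)
  exact ⟨d, hd, fun k g hg => h _ (Set.mem_iUnion.2 ⟨k, g, hg, rfl⟩)⟩

theorem stepA {AA : Set (Fin m → W)} {BB : Set (Fin l → W)} {δ : W}
    (hδ : ∀ g < δ, ∃ g' < δ, g < g') (hb : ⊥ < δ)
    (hR : ∀ p : W × W × (Fin l → Gl W m), p.1 < δ → p.2.1 < δ → (∀ k, ∀ g ∈ p.2.2 k, g.1 < δ) →
      (∃ b, Psiv AA BB p δ b) → ∃ δ', δ < δ' ∧ ∃ b, Psiv AA BB p δ' b)
    {b : Fin l → W} {G : Fin l → Gl W m} (h : Goodv AA BB δ b G) {γ₀ : W} (hγ₀ : γ₀ < δ) :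
    ∃ (b' : Fin l → W) (G' : Fin l → Gl W m), (∀ k, G' k ≠ []) ∧
      Goodv AA BB δ b' (fun k => G k ++ G' k) ∧
      ∀ k, ∀ g ∈ G' k, γ₀ ≤ g.1 ∧ g.1 < δ ∧ ∀ i, g.2.2 i = g.2.1 := by
  obtain ⟨hB, hδb, hL, he, hbig⟩ := h
  have hGδ : ∀ k, ∀ g ∈ G k, g.1 < δ := by
    intro k g hg
    apply L_lt hb (b k)
    rw [hL]
    exact List.mem_map.2 ⟨g, hg, rfl⟩
  have hc : Countable (Set.Iio δ) := (Om.countable_Iio δ).to_subtype
  obtain ⟨⟨γ₁, hγ₁⟩, h1⟩ := hbig.split (ι := Set.Iio δ)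
    (fun γ => {q | ∀ i k ξ, γ.1 ≤ ξ → ξ < δ → e ξ (q i) = e ξ (b k)}) δ (by
      intro q hq hqδ
      have hfin : (⋃ i, ⋃ k, {ξ | ξ < δ ∧ e ξ (q i) ≠ e ξ (b k)}).Finite :=
        Set.finite_iUnion fun i => Set.finite_iUnion fun k => E2' δ (q i) (b k) (hqδ i) (hδb k)
      obtain ⟨d, hd, h⟩ := finite_bound hδ hb hfin (by
        intro x hx
        obtain ⟨i, hi⟩ := Set.mem_iUnion.1 hx
        obtain ⟨k, hk⟩ := Set.mem_iUnion.1 hi
        exact hk.1)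
      refine ⟨⟨d, hd⟩, fun i k ξ h2 h3 => ?_⟩
      by_contra h4
      exact absurd (h ξ (Set.mem_iUnion.2 ⟨i, Set.mem_iUnion.2 ⟨k, h3, h4⟩⟩)) (not_lt.2 h2))
  obtain ⟨γ₂, hγ₂, h2⟩ := lists_bound hδ hb G hGδ
  let γ := max γ₀ (max γ₁ γ₂)
  have hγ : γ < δ := max_lt hγ₀ (max_lt hγ₁ hγ₂)
  obtain ⟨x₀, hx₀, hF2⟩ := F2 hδ hγ
  obtain ⟨δ', hδ', b', g2, g1, g3, g4, g5, g6⟩ := hR (γ, x₀, G) hγ hx₀ hGδ
    ⟨b, hB, hδb, hL, he, hF2, h1.mono (by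
      rintro q ⟨hq1, hq2⟩
      exact ⟨hq1, fun i k ξ h3 h4 => hq2 i k ξ
        (((le_max_left γ₁ γ₂).trans (le_max_right γ₀ _)).trans h3) h4⟩)⟩
  simp only at g1 g2 g3 g4 g5 g6
  have hF1 : ∀ k, L δ (b' k) = L δ' (b' k) ++ L δ δ' := by
    intro k
    apply F1 (b' k) δ δ' hδ'.le (g1 k)
    intro x hx y hy
    rw [g3] at hx
    obtain ⟨g, hg, rfl⟩ := List.mem_map.1 hx
    exact ((h2 k g hg).trans_le ((le_max_right γ₁ γ₂).trans (le_max_right γ₀ _))).trans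
      (g5 δ hx₀ hδ' y hy)
  refine ⟨b', fun k => (L δ δ').map (fun x => (x, e x (b' k), fun _ => e x (b' k))), ?_,
    ⟨g2, fun k => hδ'.le.trans (g1 k), ?_, ?_, ?_⟩, ?_⟩
  · intro k
    simpa using L_ne_nil hδ'
  · intro k
    rw [hF1, g3, List.map_append, List.map_map]
    congr 1
    symm
    exact List.map_id _
  · intro k g hg
    rcases List.mem_append.1 hg with hg | hg
    · exact g4 k g hg
    · obtain ⟨x, -, rfl⟩ := List.mem_map.1 hg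
      rfl
  · refine g6.mono ?_
    rintro q ⟨hq1, hq2⟩
    refine ⟨hq1.1, fun k g hg i => ?_⟩
    rcases List.mem_append.1 hg with hg | hg
    · exact hq1.2 k g hg i
    · obtain ⟨x, hx, rfl⟩ := List.mem_map.1 hg
      exact hq2 i k x (g5 δ hx₀ hδ' x hx).le ((L_lt hb δ' x hx).trans hδ')
  · intro k g hg
    obtain ⟨x, hx, rfl⟩ := List.mem_map.1 hg
    exact ⟨(le_max_left γ₀ _).trans (g5 δ hx₀ hδ' x hx).le, L_lt hb δ' x hx, fun i => rfl⟩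

theorem stepB {AA : Set (Fin m → W)} {BB : Set (Fin l → W)} {δ : W}
    (hδ : ∀ g < δ, ∃ g' < δ, g < g') (hb : ⊥ < δ)
    (hR : ∀ p : W × W × (Fin l → Gl W m), p.1 < δ → p.2.1 < δ → (∀ k, ∀ g ∈ p.2.2 k, g.1 < δ) →
      (∃ b, Psiv AA BB p δ b) → ∃ δ', δ < δ' ∧ ∃ b, Psiv AA BB p δ' b)
    (hH : ∀ G : Fin l → Gl W m, (∀ k, ∀ g ∈ G k, g.1 < δ) → Unb (CGv AA G) →
      ∃ g₁ < δ, ∀ (n : ℕ) (d : W), Unb {p ∈ CGv AA G | ∀ i ξ, g₁ ≤ ξ → ξ < d → n < e ξ (p i)})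
    {b : Fin l → W} {G : Fin l → Gl W m} (h : Goodv AA BB δ b G) :
    ∃ (b' : Fin l → W) (G' : Fin l → Gl W m), (∀ k, G' k ≠ []) ∧
      Goodv AA BB δ b' (fun k => G k ++ G' k) ∧ ∀ k, ∀ g ∈ G' k, ∀ i, g.2.1 < g.2.2 i := by
  have hGδ : ∀ k, ∀ g ∈ G k, g.1 < δ := by
    intro k g hg
    apply L_lt hb (b k)
    rw [h.eqL]
    exact List.mem_map.2 ⟨g, hg, rfl⟩
  obtain ⟨g₁, hg₁, hH'⟩ := hH G hGδ h.big
  obtain ⟨b', G₁, hne, hgood, hG₁⟩ := stepA hδ hb hR h hg₁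
  obtain ⟨N, hN⟩ : ∃ N : ℕ, ∀ k, ∀ g ∈ G₁ k, g.2.1 ≤ N := by
    refine ⟨∑ k, ((G₁ k).map fun g => g.2.1).sum, fun k g hg => ?_⟩
    calc g.2.1 ≤ ((G₁ k).map fun g => g.2.1).sum :=
          List.single_le_sum (fun _ _ => Nat.zero_le _) _ (List.mem_map.2 ⟨g, hg, rfl⟩)
      _ ≤ ∑ k, ((G₁ k).map fun g => g.2.1).sum :=
          Finset.single_le_sum (f := fun k => ((G₁ k).map fun g => g.2.1).sum)
            (fun _ _ => Nat.zero_le _) (Finset.mem_univ k)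
  obtain ⟨q₀, hq₀, hbig⟩ := (hH' N δ).values (fun k => (G₁ k).map Prod.fst)
  refine ⟨b', fun k => (G₁ k).map (fun g => (g.1, g.2.1, fun i => e g.1 (q₀ i))),
    fun k => by simpa using hne k, ⟨hgood.mem, hgood.le, ?_, ?_, ?_⟩, ?_⟩
  · intro k
    rw [hgood.eqL, List.map_append, List.map_append, List.map_map]
    rfl
  · intro k g hg
    rcases List.mem_append.1 hg with hg | hg
    · exact hgood.val k g (List.mem_append_left _ hg)
    · obtain ⟨g', hg', rfl⟩ := List.mem_map.1 hg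
      exact hgood.val k g' (List.mem_append_right _ hg')
  · refine hbig.mono ?_
    rintro q ⟨⟨hq1, hq2⟩, hq3⟩
    refine ⟨hq1.1, fun k g hg i => ?_⟩
    rcases List.mem_append.1 hg with hg | hg
    · exact hq1.2 k g hg i
    · obtain ⟨g', hg', rfl⟩ := List.mem_map.1 hg
      exact hq3 k g'.1 (List.mem_map.2 ⟨g', hg', rfl⟩) i
  · intro k g hg i
    obtain ⟨g', hg', rfl⟩ := List.mem_map.1 hg
    exact (hN k g' hg').trans_lt (hq₀.2 i g'.1 (hG₁ k g' hg').1 (hG₁ k g' hg').2.1)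

theorem iter {AA : Set (Fin m → W)} {BB : Set (Fin l → W)} {δ : W}
    (hδ : ∀ g < δ, ∃ g' < δ, g < g') (hb : ⊥ < δ)
    (hR : ∀ p : W × W × (Fin l → Gl W m), p.1 < δ → p.2.1 < δ → (∀ k, ∀ g ∈ p.2.2 k, g.1 < δ) →
      (∃ b, Psiv AA BB p δ b) → ∃ δ', δ < δ' ∧ ∃ b, Psiv AA BB p δ' b)
    (hH : ∀ G : Fin l → Gl W m, (∀ k, ∀ g ∈ G k, g.1 < δ) → Unb (CGv AA G) →
      ∃ g₁ < δ, ∀ (n : ℕ) (d : W), Unb {p ∈ CGv AA G | ∀ i ξ, g₁ ≤ ξ → ξ < d → n < e ξ (p i)})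
    {b₀ : Fin l → W} {G₀ : Fin l → Gl W m} (h : Goodv AA BB δ b₀ G₀)
    (hl : ∀ k i, (pat i (G₀ k)).getLast? = some true) (n : ℕ) :
    ∃ (b : ℕ → Fin l → W) (G : ℕ → Fin l → Gl W m), b 0 = b₀ ∧ G 0 = G₀ ∧
      (∀ j ≤ n, Goodv AA BB δ (b j) (G j)) ∧
      (∀ j ≤ n, ∀ k i, (pat i (G j k)).getLast? = some true) ∧
      (∀ j ≤ n, ∀ k i, asc (pat i (G j k)) = asc (pat i (G₀ k)) + j) ∧
      (∀ j ≤ n, ∀ k, ∀ g ∈ G j k, g ∈ G n k) := by
  induction n with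
  | zero =>
    refine ⟨fun _ => b₀, fun _ => G₀, rfl, rfl, fun _ _ => h, fun _ _ => hl, fun j hj k i => ?_,
      fun _ _ _ g hg => hg⟩
    have : j = 0 := by omega
    simp [this]
  | succ n ih =>
    obtain ⟨b, G, hb0, hG0, h1, h2, h3, h4⟩ := ih
    obtain ⟨b₁, G₁, hne₁, hg₁, he₁⟩ := stepA hδ hb hR (h1 n le_rfl) hb
    obtain ⟨b₂, G₂, hne₂, hg₂, hlt₂⟩ := stepB hδ hb hR hH hg₁
    refine ⟨fun j => if j ≤ n then b j else b₂,
      fun j => if j ≤ n then G j else fun k => G n k ++ G₁ k ++ G₂ k, by simpa using hb0,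
      by simpa using hG0,
      fun j hj => ?_, fun j hj k i => ?_, fun j hj k i => ?_, fun j hj k g hg => ?_⟩
    · by_cases hjn : j ≤ n
      · simpa only [if_pos hjn] using h1 j hjn
      · simpa only [if_neg hjn] using hg₂
    · by_cases hjn : j ≤ n
      · simpa only [if_pos hjn] using h2 j hjn k i
      · simp only [if_neg hjn]
        rw [pat_append]
        apply getLast?_append_true
        · intro x hx
          obtain ⟨g, hg, rfl⟩ := List.mem_map.1 hx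
          simpa using hlt₂ k g hg i
        · simpa [pat] using hne₂ k
    · by_cases hjn : j ≤ n
      · simpa only [if_pos hjn] using h3 j hjn k i
      · simp only [if_neg hjn]
        rw [pat_append, pat_append, List.append_assoc, asc_append_block, h3 n le_rfl k i]
        · omega
        · intro x hx
          obtain ⟨g, hg, rfl⟩ := List.mem_map.1 hx
          simp [(he₁ k g hg).2.2 i]
        · simpa [pat] using hne₁ k
        · intro x hx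
          obtain ⟨g, hg, rfl⟩ := List.mem_map.1 hx
          simpa using hlt₂ k g hg i
        · simpa [pat] using hne₂ k
    · have hn : ¬ (n + 1 ≤ n) := by omega
      simp only [if_neg hn]
      by_cases hjn : j ≤ n
      · simp only [if_pos hjn] at hg
        exact List.mem_append_left _ (List.mem_append_left _ (h4 j hjn k g hg))
      · simpa only [if_neg hjn] using hg

theorem exists_enS (S : Type) [Countable S] [Nonempty S] (m l : ℕ) :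
    ∃ en : W → ℕ → S × W × W × (Fin l → Gl W m), ∀ (d : W) (p : S × W × W × (Fin l → Gl W m)),
      p.2.1 ≤ d → p.2.2.1 ≤ d → (∀ k, ∀ g ∈ p.2.2.2 k, g.1 ≤ d) → ∃ n, en d n = p := by
  have h : ∀ d : W, ∃ f : ℕ → S × W × W × (Fin l → Gl W m), ∀ p : S × W × W × (Fin l → Gl W m),
      p.2.1 ≤ d → p.2.2.1 ≤ d → (∀ k, ∀ g ∈ p.2.2.2 k, g.1 ≤ d) → ∃ n, f n = p := by
    intro d
    have hIic : (Set.Iic d).Countable := by
      rw [← Set.Iio_insert]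
      exact (Om.countable_Iio d).insert d
    have h1 : {l : Gl W m | ∀ g ∈ l, g ∈ Set.Iic d ×ˢ
        (Set.univ : Set (ℕ × (Fin m → ℕ)))}.Countable :=
      countable_lists (hIic.prod (Set.to_countable _))
    have h3 : (Set.pi Set.univ fun _ : Fin l => {l : Gl W m | ∀ g ∈ l, g ∈ Set.Iic d ×ˢ
        (Set.univ : Set (ℕ × (Fin m → ℕ)))}).Countable :=
      Set.countable_univ_pi fun _ => h1
    have h2 := (Set.to_countable (Set.univ : Set S)).prod (hIic.prod (hIic.prod h3))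
    obtain ⟨f, hf⟩ := h2.exists_eq_range ⟨(Classical.arbitrary S, ⊥, ⊥, fun _ => []), by simp⟩
    refine ⟨f, fun p hp1 hp2 hp3 => ?_⟩
    have : p ∈ Set.range f := by
      rw [← hf]
      exact ⟨trivial, hp1, hp2, fun k _ g hg => ⟨hp3 k g hg, trivial⟩⟩
    exact this
  choose en hen using h
  exact ⟨en, hen⟩

/-- the oscillation theorem for tuples -/
theorem oscA {S : Type} [Countable S] (AA : S → Set (Fin m → W)) (BB : S → Set (Fin l → W))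
    (s₀ : S) (hAA : Unb (AA s₀)) (hBB : Unb (BB s₀)) :
    ∃ b ∈ BB s₀, ∃ (C : Set (Fin m → W)) (D : Fin m → Fin l → ℕ), Unb (AA s₀ ∩ C) ∧
      ∀ s, Unb (AA s ∩ C) → b ∈ BB s → ∀ n : ℕ, ∃ a ∈ AA s ∩ C, ∃ (T : Fin m → ℕ)
        (bb : ℕ → Fin l → W), bb 0 = b ∧ ∀ j ≤ n, bb j ∈ BB s ∧
          ∀ i k, a i < bb j k ∧ osc (a i) (bb j k) = D i k + T i + j := by
  classical
  have : Nonempty S := ⟨s₀⟩
  obtain ⟨en, hen⟩ := exists_enS (W := W) S m l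
  -- the closing function
  have hH : ∀ p : S × W × W × (Fin l → Gl W m), ∃ c : W,
      (∀ δ b, Psiv (AA p.1) (BB p.1) p.2 δ b → c < δ →
        ∃ δ', δ < δ' ∧ ∃ b, Psiv (AA p.1) (BB p.1) p.2 δ' b) ∧
      (Unb (CGv (AA p.1) p.2.2.2) → ∀ (n : ℕ) (d : W),
        Unb {q ∈ CGv (AA p.1) p.2.2.2 | ∀ i ξ, c ≤ ξ → ξ < d → n < e ξ (q i)}) ∧
      (Unb (CGv (AA p.1) p.2.2.2) → ∃ a ∈ CGv (AA p.1) p.2.2.2, ∀ i, p.2.2.1 < a i ∧ a i ≤ c) := by
    intro p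
    have h1 : ∃ c : W, ∀ δ b, Psiv (AA p.1) (BB p.1) p.2 δ b → c < δ →
        ∃ δ', δ < δ' ∧ ∃ b, Psiv (AA p.1) (BB p.1) p.2 δ' b := by
      by_contra hcon
      push Not at hcon
      obtain ⟨δ₁, b₁, -, -, h4⟩ := hcon ⊥
      obtain ⟨δ₂, b₂, h5, h6, h7⟩ := hcon δ₁
      exact h4 δ₂ h6 b₂ h5
    have h2 : ∃ c : W, Unb (CGv (AA p.1) p.2.2.2) → ∀ (n : ℕ) (d : W),
        Unb {q ∈ CGv (AA p.1) p.2.2.2 | ∀ i ξ, c ≤ ξ → ξ < d → n < e ξ (q i)} := by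
      by_cases h : Unb (CGv (AA p.1) p.2.2.2)
      · obtain ⟨c, hc⟩ := h.high
        exact ⟨c, fun _ => hc⟩
      · exact ⟨⊥, fun h' => absurd h' h⟩
    have h3 : ∃ c : W, Unb (CGv (AA p.1) p.2.2.2) →
        ∃ a ∈ CGv (AA p.1) p.2.2.2, ∀ i, p.2.2.1 < a i ∧ a i ≤ c := by
      by_cases h : Unb (CGv (AA p.1) p.2.2.2)
      · obtain ⟨x₁, hx₁⟩ := Om.bdd {p.2.2.1} (Set.countable_singleton _)
        obtain ⟨a, ha, hxa⟩ := h x₁
        obtain ⟨c, hc⟩ := bdd_range a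
        exact ⟨c, fun _ => ⟨a, ha, fun i => ⟨(hx₁ _ rfl).trans_le (hxa i), (hc i).le⟩⟩⟩
      · exact ⟨⊥, fun h' => absurd h' h⟩
    obtain ⟨c₁, hc₁⟩ := h1
    obtain ⟨c₂, hc₂⟩ := h2
    obtain ⟨c₃, hc₃⟩ := h3
    refine ⟨max c₁ (max c₂ c₃), fun δ b h hδ => hc₁ δ b h ((le_max_left _ _).trans_lt hδ),
      fun h n d => (hc₂ h n d).mono ?_, fun h => ?_⟩
    · rintro q ⟨hq1, hq2⟩
      exact ⟨hq1, fun i ξ h1 h2 => hq2 i ξ (((le_max_left _ _).trans (le_max_right _ _)).trans h1) h2⟩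
    · obtain ⟨a, ha, h⟩ := hc₃ h
      exact ⟨a, ha, fun i => ⟨(h i).1, (h i).2.trans ((le_max_right _ _).trans (le_max_right _ _))⟩⟩
  choose H hH1 hH2 hH3 using hH
  obtain ⟨δ, hδ, hb, hcl⟩ := closed_pt en H
  have hpar : ∀ p : S × W × W × (Fin l → Gl W m), p.2.1 < δ → p.2.2.1 < δ →
      (∀ k, ∀ g ∈ p.2.2.2 k, g.1 < δ) → H p < δ := by
    intro p h1 h2 h3
    obtain ⟨d, hd, h⟩ := lists_bound hδ hb p.2.2.2 h3
    obtain ⟨n, hn⟩ := hen (max d (max p.2.1 p.2.2.1)) p ((le_max_left _ _).trans (le_max_right _ _))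
      ((le_max_right _ _).trans (le_max_right _ _)) fun k g hg => (h k g hg).le.trans (le_max_left _ _)
    rw [← hn]
    exact hcl _ (max_lt hd (max_lt h1 h2)) n
  have hR : ∀ s, ∀ p : W × W × (Fin l → Gl W m), p.1 < δ → p.2.1 < δ →
      (∀ k, ∀ g ∈ p.2.2 k, g.1 < δ) →
      (∃ b, Psiv (AA s) (BB s) p δ b) → ∃ δ', δ < δ' ∧ ∃ b, Psiv (AA s) (BB s) p δ' b := by
    rintro s p h1 h2 h3 ⟨b, h4⟩
    exact hH1 (s, p) δ b h4 (hpar (s, p) h1 h2 h3)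
  have hHi : ∀ s, ∀ G : Fin l → Gl W m, (∀ k, ∀ g ∈ G k, g.1 < δ) → Unb (CGv (AA s) G) →
      ∃ g₁ < δ, ∀ (n : ℕ) (d : W),
        Unb {p ∈ CGv (AA s) G | ∀ i ξ, g₁ ≤ ξ → ξ < d → n < e ξ (p i)} := by
    intro s G hG h
    exact ⟨H (s, ⊥, ⊥, G), hpar (s, ⊥, ⊥, G) hb hb hG, hH2 (s, ⊥, ⊥, G) h⟩
  -- the first tuple
  obtain ⟨b₀, hb₀, hδb₀⟩ := hBB δ
  obtain ⟨q₀, hq₀, hbig⟩ := hAA.values (fun k => L δ (b₀ k))
  have hgood : Goodv (AA s₀) (BB s₀) δ b₀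
      (fun k => (L δ (b₀ k)).map fun x => (x, e x (b₀ k), fun i => e x (q₀ i))) := by
    refine ⟨hb₀, hδb₀, ?_, ?_, ?_⟩
    · intro k
      rw [List.map_map]
      symm
      exact List.map_id _
    · intro k g hg
      obtain ⟨x, -, rfl⟩ := List.mem_map.1 hg
      rfl
    · refine hbig.mono ?_
      rintro q ⟨hq1, hq2⟩
      refine ⟨hq1, fun k g hg i => ?_⟩
      obtain ⟨x, hx, rfl⟩ := List.mem_map.1 hg
      exact hq2 k x hx i
  obtain ⟨b, G', hne, hg', hlt⟩ := stepB hδ hb (hR s₀) (hHi s₀) hgood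
  set G : Fin l → Gl W m := fun k =>
    ((L δ (b₀ k)).map fun x => (x, e x (b₀ k), fun i => e x (q₀ i))) ++ G' k with hGdef
  have hlast : ∀ k i, (pat i (G k)).getLast? = some true := by
    intro k i
    rw [hGdef]
    simp only
    rw [pat_append]
    apply getLast?_append_true
    · intro x hx
      obtain ⟨g, hg, rfl⟩ := List.mem_map.1 hx
      simpa using hlt k g hg i
    · simpa [pat] using hne k
  refine ⟨b, hg'.mem, {a | ∀ k, ∀ g ∈ G k, ∀ i, e g.1 (a i) = g.2.2 i},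
    fun i k => asc (pat i (G k)), hg'.big.mono fun a ha => ⟨ha.1, ha.2⟩, ?_⟩
  intro s hs hbs n
  have hgs : Goodv (AA s) (BB s) δ b G := ⟨hbs, hg'.le, hg'.eqL, hg'.val, hs.mono fun a ha =>
    ⟨ha.1, ha.2⟩⟩
  obtain ⟨bb, GG, hb0, hG0, h1, h2, h3, h4⟩ := iter hδ hb (hR s) (hHi s) hgs hlast n
  have hGδ : ∀ k, ∀ g ∈ GG n k, g.1 < δ := by
    intro k g hg
    apply L_lt hb (bb n k)
    rw [(h1 n le_rfl).eqL]
    exact List.mem_map.2 ⟨g, hg, rfl⟩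
  obtain ⟨γ₁, hγ₁, hγ₁'⟩ := lists_bound hδ hb (GG n) hGδ
  have hfin : (⋃ j ∈ Set.Iic n, ⋃ k, {ξ | ξ < δ ∧ e ξ δ ≠ e ξ (bb j k)}).Finite :=
    (Set.finite_Iic n).biUnion fun j hj => Set.finite_iUnion fun k =>
      E2 (bb j k) δ ((h1 j hj).le k)
  obtain ⟨γ₂, hγ₂, hγ₂'⟩ := finite_bound hδ hb hfin (by
    intro x hx
    simp only [Set.mem_iUnion] at hx
    obtain ⟨j, -, k, hx⟩ := hx
    exact hx.1)
  obtain ⟨x₀, hx₀, hF2⟩ := F2 hδ (max_lt hγ₁ hγ₂)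
  obtain ⟨a, ha, hax⟩ := hH3 (s, ⊥, x₀, GG n) (h1 n le_rfl).big
  have haδ : ∀ i, a i < δ := fun i =>
    (hax i).2.trans_lt (hpar (s, ⊥, x₀, GG n) hb hx₀ hGδ)
  have ha2 : ∀ i, x₀ < a i := fun i => (hax i).1
  have ha1 : a ∈ AA s := ha.1
  have haG : ∀ k, ∀ g ∈ GG n k, ∀ i, e g.1 (a i) = g.2.2 i := ha.2
  refine ⟨a, ⟨ha1, fun k g hg i => haG k g (h4 0 (Nat.zero_le n) k g (by rw [hG0]; exact hg)) i⟩,
    fun i => asc ((L (a i) δ).map fun x => decide (e x δ < e x (a i))), bb, hb0,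
    fun j hj => ⟨(h1 j hj).mem, fun i k => ⟨(haδ i).trans_le ((h1 j hj).le k), ?_⟩⟩⟩
  have hai : ⊥ < a i := bot_le.trans_lt (ha2 i)
  have hF1 : L (a i) (bb j k) = L δ (bb j k) ++ L (a i) δ := by
    apply F1 (bb j k) (a i) δ (haδ i).le ((h1 j hj).le k)
    intro x hx y hy
    rw [(h1 j hj).eqL] at hx
    obtain ⟨g, hg, rfl⟩ := List.mem_map.1 hx
    exact ((hγ₁' k g (h4 j hj k g hg)).trans_le (le_max_left _ _)).trans
      (hF2 (a i) (ha2 i) (haδ i) y hy)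
  unfold osc
  rw [hF1, List.map_append]
  have e1 : (L δ (bb j k)).map (fun x => decide (e x (bb j k) < e x (a i))) = pat i (GG j k) := by
    rw [(h1 j hj).eqL, List.map_map, pat]
    apply List.map_congr_left
    intro g hg
    simp only [Function.comp]
    rw [(h1 j hj).val k g hg, haG k g (h4 j hj k g hg) i]
  have e2 : (L (a i) δ).map (fun x => decide (e x (bb j k) < e x (a i))) =
      (L (a i) δ).map (fun x => decide (e x δ < e x (a i))) := by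
    apply List.map_congr_left
    intro x hx
    have hx1 : x < δ := (L_lt hai δ x hx).trans (haδ i)
    have hx2 := hF2 (a i) (ha2 i) (haδ i) x hx
    have : e x δ = e x (bb j k) := by
      by_contra hne
      have := hγ₂' x (by
        simp only [Set.mem_iUnion]
        exact ⟨j, hj, k, hx1, hne⟩)
      exact absurd (this.trans_le (le_max_right γ₁ γ₂)) (not_lt.2 hx2.le)
    rw [this]
  rw [e1, e2, asc_append_true _ _ (h2 j hj k i), h3 j hj k i]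
  beta_reduce
  omega

end Pool.Agent.K6.H63.OscPair
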